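import Pool.Agent.Helper717.LT.P_final_thm

set_option autoImplicit false

open MeasureTheory Set Filter Topology Real
open scoped ENNReal

namespace Pool.H632.LTD

open LTd

/-- The `(n + 1)`-th min-max value of the quadratic form of `-Δ + V` on `H¹(ℝ^d)`. -/
noncomputable def minMax {d : ℕ} (V : (Fin d → ℝ) → ℝ) (n : ℕ) : ℝ :=
  sInf {lam : ℝ | ∃ W : Submodule ℂ (Lp ℂ 2 (volume : Measure (Fin d → ℝ))),
    Module.finrank ℂ W = n + 1 ∧ ∀ u ∈ W, ∃ g : Fin d → (Fin d → ℝ) → ℂ, WGradC u g ∧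
      (∫ x, ∑ k, ‖g k x‖ ^ 2) + ∫ x, V x * ‖u x‖ ^ 2 ≤ lam * ∫ x, ‖u x‖ ^ 2}

/-- Successive choice of an orthonormal family in spaces of growing dimension. -/
lemma exists_orthonormal {H : Type*} [NormedAddCommGroup H] [InnerProductSpace ℂ H]
    (J : Finset ℕ) (W : ℕ → Submodule ℂ H)
    (hW : ∀ n ∈ J, Module.finrank ℂ (W n) = n + 1) (k : ℕ) :
    ∃ u : ℕ → H, (∀ n ∈ J, n < k → u n ∈ W n) ∧
      ∀ n ∈ J, ∀ m ∈ J, n < k → m < k →
        inner ℂ (u n) (u m) = if n = m then (1 : ℂ) else 0 := by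
  induction k with
  | zero => exact ⟨fun _ => 0, fun n _ hn => absurd hn (Nat.not_lt_zero n),
      fun n _ m _ hn => absurd hn (Nat.not_lt_zero n)⟩
  | succ k ih =>
    obtain ⟨u, hu, ho⟩ := ih
    by_cases hk : k ∈ J
    · classical
      let T : W k →ₗ[ℂ] (Fin k → ℂ) :=
        { toFun := fun w j => inner ℂ (u j) (w : H)
          map_add' := fun a b => by
            funext j
            simp
          map_smul' := fun c a => by
            funext j
            simp }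
      have hfin : FiniteDimensional ℂ (W k) :=
        FiniteDimensional.of_finrank_pos (by rw [hW k hk]; exact Nat.succ_pos k)
      have hker : LinearMap.ker T ≠ ⊥ := by
        refine LinearMap.ker_ne_bot_of_finrank_lt ?_
        rw [hW k hk, Module.finrank_fin_fun]
        exact Nat.lt_succ_self k
      obtain ⟨w, hwT, hw0⟩ := (Submodule.ne_bot_iff _).1 hker
      have hwT' : T w = 0 := hwT
      have hw0' : (w : H) ≠ 0 := fun h => hw0 (Subtype.ext h)
      have hpos : 0 < ‖(w : H)‖ := norm_pos_iff.2 hw0'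
      set v : H := ((‖(w : H)‖ : ℂ)⁻¹) • (w : H) with hv
      have hvW : v ∈ W k := (W k).smul_mem _ w.2
      have horth : ∀ n ∈ J, n < k → inner ℂ (u n) v = 0 := by
        intro n hn hnk
        have h1 := congrFun hwT' ⟨n, hnk⟩
        have h2 : inner ℂ (u n) (w : H) = 0 := h1
        rw [hv, inner_smul_right, h2, mul_zero]
      have horth' : ∀ n ∈ J, n < k → inner ℂ v (u n) = 0 := by
        intro n hn hnk
        rw [← inner_conj_symm, horth n hn hnk, map_zero]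
      have hnorm : inner ℂ v v = (1 : ℂ) := by
        rw [inner_self_eq_norm_sq_to_K, hv, norm_smul, norm_inv, Complex.norm_real, norm_norm,
          inv_mul_cancel₀ hpos.ne']
        simp
      refine ⟨Function.update u k v, ?_, ?_⟩
      · intro n hn hnk
        by_cases hnk' : n = k
        · subst hnk'; rw [Function.update_self]; exact hvW
        · rw [Function.update_of_ne hnk']
          exact hu n hn (lt_of_le_of_ne (Nat.lt_succ_iff.1 hnk) hnk')
      · intro n hn m' hm' hnk hmk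
        by_cases hnk' : n = k
        · by_cases hmk' : m' = k
          · rw [hnk', hmk', Function.update_self, if_pos rfl]
            exact hnorm
          · rw [hnk', Function.update_self, Function.update_of_ne hmk', if_neg (Ne.symm hmk')]
            exact horth' m' hm' (lt_of_le_of_ne (Nat.lt_succ_iff.1 hmk) hmk')
        · by_cases hmk' : m' = k
          · rw [hmk', Function.update_self, Function.update_of_ne hnk', if_neg hnk']
            exact horth n hn (lt_of_le_of_ne (Nat.lt_succ_iff.1 hnk) hnk')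
          · rw [Function.update_of_ne hnk', Function.update_of_ne hmk']
            exact ho n hn m' hm' (lt_of_le_of_ne (Nat.lt_succ_iff.1 hnk) hnk')
              (lt_of_le_of_ne (Nat.lt_succ_iff.1 hmk) hmk')
    · refine ⟨u, ?_, ?_⟩
      · intro n hn hnk
        exact hu n hn (lt_of_le_of_ne (Nat.lt_succ_iff.1 hnk) fun h => hk (h ▸ hn))
      · intro n hn m' hm' hnk hmk
        exact ho n hn m' hm' (lt_of_le_of_ne (Nat.lt_succ_iff.1 hnk) fun h => hk (h ▸ hn))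
          (lt_of_le_of_ne (Nat.lt_succ_iff.1 hmk) fun h => hk (h ▸ hm'))

/-- The constant in front of the kinetic energy. -/
noncomputable def KK (d : ℕ) : ℝ := (3 / 4 : ℝ) ^ (1 / (d:ℝ)) * Kcl d

/-- The dual constant. -/
noncomputable def L1 (d : ℕ) : ℝ :=
  2 / ((d:ℝ) + 2) * (((d:ℝ) + 2) / d * KK d) ^ (-((d:ℝ) / 2))

/-- The semiclassical constant `L^cl_{γ,d}`. -/
noncomputable def Lcl (γ : ℝ) (d : ℕ) : ℝ :=
  Gamma (γ + 1) / ((4 * π) ^ ((d:ℝ) / 2) * Gamma (γ + 1 + d / 2))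

lemma volBall (d : ℕ) (hd : 1 ≤ d) :
    (volume (Metric.ball (0 : EuclideanSpace ℝ (Fin d)) 1)).toReal =
      π ^ ((d:ℝ) / 2) / Gamma (d / 2 + 1) := by
  have : Nonempty (Fin d) := ⟨⟨0, hd⟩⟩
  rw [EuclideanSpace.volume_ball]
  simp only [Fintype.card_fin, ENNReal.ofReal_one, one_pow, one_mul]
  rw [ENNReal.toReal_ofReal]
  · congr 1
    rw [Real.sqrt_eq_rpow, ← Real.rpow_natCast, ← Real.rpow_mul pi_pos.le]
    congr 1
    ring
  · positivity

lemma volBall_pos (d : ℕ) (hd : 1 ≤ d) :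
    0 < (volume (Metric.ball (0 : EuclideanSpace ℝ (Fin d)) 1)).toReal := by
  rw [volBall d hd]
  have : 0 < Gamma ((d:ℝ) / 2 + 1) := Gamma_pos_of_pos (by positivity)
  positivity

lemma Kcl_pos (d : ℕ) (hd : 1 ≤ d) : 0 < Kcl d := by
  have h1 := volBall_pos d hd
  have h2 : (0:ℝ) < d := by exact_mod_cast hd
  unfold Kcl
  positivity

lemma KK_pos (d : ℕ) (hd : 1 ≤ d) : 0 < KK d := by
  have := Kcl_pos d hd
  unfold KK
  positivity

lemma L1_eq (d : ℕ) (hd : 1 ≤ d) : L1 d = 2 / √3 * Lcl 1 d := by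
  have hd0 : (0:ℝ) < d := by exact_mod_cast hd
  have hω := volBall_pos d hd
  set ω : ℝ := (volume (Metric.ball (0 : EuclideanSpace ℝ (Fin d)) 1)).toReal with hωd
  have e1 : ((d:ℝ) + 2) / d * KK d =
      (3 / 4 : ℝ) ^ (1 / (d:ℝ)) * ((2 * π) ^ 2 / ω ^ ((2:ℝ) / d)) := by
    unfold KK Kcl
    rw [← hωd]
    field_simp
  have e2 : ((3 / 4 : ℝ) ^ (1 / (d:ℝ)) * ((2 * π) ^ 2 / ω ^ ((2:ℝ) / d))) ^ (-((d:ℝ) / 2)) =
      2 / √3 * (ω / (2 * π) ^ (d:ℝ)) := by
    rw [Real.mul_rpow (by positivity) (by positivity), ← Real.rpow_mul (by norm_num),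
      Real.div_rpow (x := (2 * π) ^ 2) (by positivity) (by positivity), ← Real.rpow_mul hω.le]
    have h1 : 1 / (d:ℝ) * -((d:ℝ) / 2) = -(1 / 2) := by field_simp
    have h2 : (2:ℝ) / d * -((d:ℝ) / 2) = -1 := by field_simp
    rw [h1, h2]
    have h3 : (3 / 4 : ℝ) ^ (-(1 / 2) : ℝ) = 2 / √3 := by
      rw [Real.rpow_neg (by norm_num), ← Real.sqrt_eq_rpow, Real.sqrt_div (by norm_num)]
      have : √4 = (2:ℝ) := by
        rw [show (4:ℝ) = 2 ^ 2 by norm_num, Real.sqrt_sq (by norm_num)]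
      rw [this, inv_div]
    have h4 : (((2 * π) ^ 2 : ℝ)) ^ (-((d:ℝ) / 2)) = ((2 * π) ^ (d:ℝ))⁻¹ := by
      rw [← Real.rpow_natCast, ← Real.rpow_mul (by positivity), ← Real.rpow_neg (by positivity)]
      congr 1
      push_cast
      ring
    rw [h3, h4, Real.rpow_neg_one]
    field_simp
  unfold L1
  rw [e1, e2]
  unfold Lcl
  have h5 : Gamma ((1:ℝ) + 1) = 1 := by
    rw [show (1:ℝ) + 1 = 2 by norm_num]
    exact Real.Gamma_two
  have h6 : Gamma ((1:ℝ) + 1 + d / 2) = (d / 2 + 1) * Gamma ((d:ℝ) / 2 + 1) := by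
    rw [← Real.Gamma_add_one (by positivity)]
    congr 1
    ring
  have h7 : 0 < Gamma ((d:ℝ) / 2 + 1) := Gamma_pos_of_pos (by positivity)
  have h8 : ω = π ^ ((d:ℝ) / 2) / Gamma (d / 2 + 1) := volBall d hd
  rw [h5, h6, h8]
  have h9 : (2 * π) ^ (d:ℝ) = (4 * π) ^ ((d:ℝ) / 2) * π ^ ((d:ℝ) / 2) := by
    rw [← Real.mul_rpow (by positivity) (by positivity)]
    rw [show 4 * π * π = (2 * π) ^ (2:ℕ) by ring, ← Real.rpow_natCast,
      ← Real.rpow_mul (by positivity)]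
    congr 1
    push_cast
    ring
  rw [h9]
  have h10 : 0 < (4 * π) ^ ((d:ℝ) / 2) := by positivity
  have h11 : 0 < π ^ ((d:ℝ) / 2) := by positivity
  field_simp

lemma L1_pos (d : ℕ) (hd : 1 ≤ d) : 0 < L1 d := by
  have h1 := KK_pos d hd
  have h2 : (0:ℝ) < d := by exact_mod_cast hd
  unfold L1
  positivity

/-- The pointwise Young inequality. -/
lemma young (d : ℕ) (hd : 1 ≤ d) {a ρ : ℝ} (ha : 0 ≤ a) (hρ : 0 ≤ ρ) :
    a * ρ ≤ KK d * ρ ^ (1 + 2 / (d:ℝ)) + L1 d * a ^ (1 + (d:ℝ) / 2) := by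
  have hd0 : (0:ℝ) < d := by exact_mod_cast hd
  have hK := KK_pos d hd
  set p : ℝ := 1 + 2 / (d:ℝ) with hp
  set q : ℝ := 1 + (d:ℝ) / 2 with hq
  have hp0 : 0 < p := by positivity
  have hq0 : 0 < q := by positivity
  have hpq : p.HolderConjugate q := by
    rw [Real.holderConjugate_iff]
    refine ⟨by rw [hp]; linarith [div_pos (by norm_num : (0:ℝ) < 2) hd0], ?_⟩
    rw [hp, hq]
    field_simp
    ring
  set c : ℝ := (p * KK d) ^ (1 / p) with hc
  have hpK : 0 < p * KK d := by positivity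
  have hc0 : 0 < c := by positivity
  have h1 := Real.young_inequality_of_nonneg (a := c * ρ) (b := a / c) (by positivity)
    (by positivity) hpq
  have e1 : c * ρ * (a / c) = a * ρ := by field_simp
  have e2 : (c * ρ) ^ p / p = KK d * ρ ^ p := by
    rw [Real.mul_rpow hc0.le hρ, hc, ← Real.rpow_mul hpK.le, one_div_mul_cancel hp0.ne',
      Real.rpow_one]
    field_simp
  have e3 : (a / c) ^ q / q = L1 d * a ^ q := by
    rw [Real.div_rpow ha hc0.le, hc, ← Real.rpow_mul hpK.le]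
    have h2 : 1 / p * q = (d:ℝ) / 2 := by
      rw [hp, hq]; field_simp
      ring
    rw [h2]
    unfold L1
    have h3 : ((d:ℝ) + 2) / d * KK d = p * KK d := by
      rw [hp]; field_simp
    rw [h3, Real.rpow_neg hpK.le]
    have h4 : q = (d + 2) / 2 := by rw [hq]; ring
    have h5 : 0 < (p * KK d) ^ ((d:ℝ) / 2) := by positivity
    rw [show (a ^ q / (p * KK d) ^ ((d:ℝ) / 2) / q) =
      1 / q * ((p * KK d) ^ ((d:ℝ) / 2))⁻¹ * a ^ q by field_simp]
    rw [show 1 / q = 2 / ((d:ℝ) + 2) by rw [h4]; field_simp]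
  rw [e1, e2, e3] at h1
  exact h1

lemma wgrad_const_mul {d : ℕ} {u : (Fin d → ℝ) → ℂ} {g : Fin d → (Fin d → ℝ) → ℂ}
    (h : WGradC u g) (c : ℂ) : WGradC (fun x => c * u x) (fun k x => c * g k x) := by
  refine ⟨h.f2.const_mul c, fun k => (h.g2 k).const_mul c, fun k φ hφ hc => ?_⟩
  simp only [mul_assoc]
  rw [integral_const_mul, integral_const_mul, h.weak k φ hφ hc, mul_neg]

lemma wgrad_congr {d : ℕ} {u v : (Fin d → ℝ) → ℂ} {g : Fin d → (Fin d → ℝ) → ℂ}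
    (h : WGradC u g) (huv : u =ᵐ[volume] v) : WGradC v g := by
  refine ⟨(memLp_congr_ae huv).1 h.f2, h.g2, fun k φ hφ hc => ?_⟩
  rw [← h.weak k φ hφ hc]
  refine integral_congr_ae ?_
  filter_upwards [huv] with x hx
  rw [hx]

lemma star_mul_self (z : ℂ) : (starRingEnd ℂ) z * z = ((‖z‖ ^ 2 : ℝ) : ℂ) := by
  rw [← Complex.normSq_eq_norm_sq, mul_comm]
  exact Complex.mul_conj _

lemma int_sq {d : ℕ} {u : (Fin d → ℝ) → ℂ} (hu : MemLp u 2 volume) :
    Integrable (fun x => ‖u x‖ ^ 2) volume := hu.integrable_norm_pow (by norm_num)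

/-- `|u|² ∈ L^(1+2/d)` for `u ∈ H¹(ℝ^d)`. -/
lemma int_rho (d : ℕ) (hd : 1 ≤ d) {u : (Fin d → ℝ) → ℂ} {g : Fin d → (Fin d → ℝ) → ℂ}
    (h : WGradC u g) : Integrable (fun x => (‖u x‖ ^ 2) ^ (1 + 2 / (d:ℝ))) volume := by
  have hd0 : (0:ℝ) < d := by exact_mod_cast hd
  have hp0 : 0 < 1 + 2 / (d:ℝ) := by positivity
  have hsq := int_sq h.f2
  have h0 : 0 ≤ ∫ x, ‖u x‖ ^ 2 := integral_nonneg fun x => sq_nonneg _
  rcases h0.eq_or_lt with h1 | hpos
  · have h2 : (fun x => ‖u x‖ ^ 2) =ᵐ[volume] 0 :=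
      (integral_eq_zero_iff_of_nonneg (fun x => sq_nonneg _) hsq).1 h1.symm
    refine (integrable_zero _ _ _).congr (f := fun _ => (0:ℝ)) ?_
    filter_upwards [h2] with x hx
    have hx' : ‖u x‖ ^ 2 = 0 := hx
    rw [hx', Real.zero_rpow hp0.ne']
  · set m : ℝ := ∫ x, ‖u x‖ ^ 2 with hm
    set c : ℝ := (√m)⁻¹ with hc
    have hc0 : 0 < c := inv_pos.2 (Real.sqrt_pos.2 hpos)
    have hc2 : c ^ 2 = m⁻¹ := by rw [hc, inv_pow, Real.sq_sqrt hpos.le]
    have hv := wgrad_const_mul h (c : ℂ)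
    have hnv : ∀ x, ‖(c : ℂ) * u x‖ ^ 2 = m⁻¹ * ‖u x‖ ^ 2 := by
      intro x
      rw [norm_mul, mul_pow, Complex.norm_real, Real.norm_eq_abs, sq_abs, hc2]
    have h3 := (final_thm d hd 1 (fun _ x => (c : ℂ) * u x) (fun _ k x => (c : ℂ) * g k x)
      (fun _ => hv) (by
        intro i j
        rw [if_pos (Subsingleton.elim i j)]
        simp only [star_mul_self, hnv]
        rw [integral_complex_ofReal, integral_const_mul, ← hm, inv_mul_cancel₀ hpos.ne']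
        simp)).1
    simp only [Finset.univ_unique, Fin.default_eq_zero, Fin.isValue, Finset.sum_const,
      Finset.card_singleton, one_smul, hnv] at h3
    have h4 := h3.const_mul (m ^ (1 + 2 / (d:ℝ)))
    refine h4.congr (Eventually.of_forall fun x => ?_)
    simp only
    rw [← Real.mul_rpow hpos.le (by positivity), ← mul_assoc, mul_inv_cancel₀ hpos.ne', one_mul]

/-- The class of admissible potentials in dimension `d`. -/
structure Adm (d : ℕ) (V : (Fin d → ℝ) → ℝ) : Prop where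
  int : ∀ (u : (Fin d → ℝ) → ℂ) (g : Fin d → (Fin d → ℝ) → ℂ), WGradC u g →
    Integrable (fun x => V x * ‖u x‖ ^ 2) volume
  neg : Integrable (fun x => (max (-V x) 0) ^ (1 + (d:ℝ) / 2)) volume

/-- The eigenvalue sum bound for an orthonormal family. -/
theorem family_bound (d : ℕ) (hd : 1 ≤ d) {N : ℕ} (u : Fin N → (Fin d → ℝ) → ℂ)
    (g : Fin N → Fin d → (Fin d → ℝ) → ℂ) (hs : ∀ n, WGradC (u n) (g n))
    (ho : ∀ n m, ∫ x, (starRingEnd ℂ) (u n x) * u m x = if n = m then 1 else 0)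
    (V : (Fin d → ℝ) → ℝ) (hV : Adm d V) :
    -(∑ n, ((∫ x, ∑ k, ‖g n k x‖ ^ 2) + ∫ x, V x * ‖u n x‖ ^ 2)) ≤
      L1 d * ∫ x, (max (-V x) 0) ^ (1 + (d:ℝ) / 2) := by
  obtain ⟨hρ3, hsharp⟩ := final_thm d hd N u g hs ho
  set ρ : (Fin d → ℝ) → ℝ := fun x => ∑ n, ‖u n x‖ ^ 2 with hρ
  have hρ0 : ∀ x, 0 ≤ ρ x := fun x => Finset.sum_nonneg fun n _ => sq_nonneg _
  have hVn : ∀ n, Integrable (fun x => V x * ‖u n x‖ ^ 2) volume :=
    fun n => hV.int _ _ (hs n)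
  have hVρ : Integrable (fun x => V x * ρ x) volume := by
    have := integrable_finsetSum Finset.univ fun n _ => hVn n
    refine this.congr (Eventually.of_forall fun x => ?_)
    simp only [hρ, Finset.mul_sum]
  have hsum : ∑ n, ∫ x, V x * ‖u n x‖ ^ 2 = ∫ x, V x * ρ x := by
    rw [← integral_finsetSum _ fun n _ => hVn n]
    congr 1
    funext x
    rw [hρ, Finset.mul_sum]
  have hkin : ∀ n, ∫ x, ∑ k, ‖g n k x‖ ^ 2 = ∑ k, ∫ x, ‖g n k x‖ ^ 2 := by
    intro n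
    rw [integral_finsetSum _ fun k _ => int_sq ((hs n).g2 k)]
  rw [Finset.sum_add_distrib, hsum]
  simp only [hkin]
  have hpt : ∀ x, -(V x * ρ x) ≤ KK d * ρ x ^ (1 + 2 / (d:ℝ)) +
      L1 d * (max (-V x) 0) ^ (1 + (d:ℝ) / 2) := by
    intro x
    have h1 := young d hd (a := max (-V x) 0) (ρ := ρ x) (le_max_right _ _) (hρ0 x)
    have h2 : -(V x * ρ x) ≤ max (-V x) 0 * ρ x := by
      rw [← neg_mul]
      exact mul_le_mul_of_nonneg_right (le_max_left _ _) (hρ0 x)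
    exact h2.trans h1
  have e1 : ∫ x, (KK d * ρ x ^ (1 + 2 / (d:ℝ)) + L1 d * (max (-V x) 0) ^ (1 + (d:ℝ) / 2)) =
      KK d * (∫ x, ρ x ^ (1 + 2 / (d:ℝ))) + L1 d * ∫ x, (max (-V x) 0) ^ (1 + (d:ℝ) / 2) := by
    rw [← integral_const_mul, ← integral_const_mul]
    exact integral_add (hρ3.const_mul (KK d)) (hV.neg.const_mul (L1 d))
  have hint : ∫ x, -(V x * ρ x) ≤
      ∫ x, (KK d * ρ x ^ (1 + 2 / (d:ℝ)) + L1 d * (max (-V x) 0) ^ (1 + (d:ℝ) / 2)) :=
    integral_mono hVρ.neg ((hρ3.const_mul (KK d)).add (hV.neg.const_mul (L1 d))) hpt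
  rw [integral_neg, e1] at hint
  have hsharp' : KK d * ∫ x, ρ x ^ (1 + 2 / (d:ℝ)) ≤ ∑ i, ∑ k, ∫ x, ‖g i k x‖ ^ 2 := hsharp
  linarith

lemma lp_inner {d : ℕ} (u v : Lp ℂ 2 (volume : Measure (Fin d → ℝ))) :
    inner ℂ u v = ∫ x, (starRingEnd ℂ) (u x) * v x := by
  rw [L2.inner_def]
  refine integral_congr_ae (Eventually.of_forall fun x => ?_)
  simp only [RCLike.inner_apply]
  ring

lemma lp_unit {d : ℕ} {u : Lp ℂ 2 (volume : Measure (Fin d → ℝ))} (h : inner ℂ u u = (1 : ℂ)) :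
    ∫ x, ‖u x‖ ^ 2 = 1 := by
  rw [lp_inner] at h
  simp only [star_mul_self] at h
  rw [integral_complex_ofReal] at h
  exact_mod_cast h

/-- The set in the definition of the min-max values is bounded below. -/
theorem bddBelow (d : ℕ) (hd : 1 ≤ d) (V : (Fin d → ℝ) → ℝ) (hV : Adm d V) (n : ℕ) :
    BddBelow {lam : ℝ | ∃ W : Submodule ℂ (Lp ℂ 2 (volume : Measure (Fin d → ℝ))),
    Module.finrank ℂ W = n + 1 ∧ ∀ u ∈ W, ∃ g : Fin d → (Fin d → ℝ) → ℂ, WGradC u g ∧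
      (∫ x, ∑ k, ‖g k x‖ ^ 2) + ∫ x, V x * ‖u x‖ ^ 2 ≤ lam * ∫ x, ‖u x‖ ^ 2} := by
  refine ⟨-(L1 d * ∫ x, (max (-V x) 0) ^ (1 + (d:ℝ) / 2)), ?_⟩
  rintro lam ⟨W, hW, hW2⟩
  have hne : W ≠ ⊥ := by
    intro h
    rw [h, finrank_bot] at hW
    omega
  obtain ⟨w, hwW, hw0⟩ := (Submodule.ne_bot_iff _).1 hne
  have hpos : 0 < ‖w‖ := norm_pos_iff.2 hw0
  set v : Lp ℂ 2 (volume : Measure (Fin d → ℝ)) := ((‖w‖ : ℂ)⁻¹) • w with hv
  have hvW : v ∈ W := W.smul_mem _ hwW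
  have hnorm : inner ℂ v v = (1 : ℂ) := by
    rw [inner_self_eq_norm_sq_to_K, hv, norm_smul, norm_inv, Complex.norm_real, norm_norm,
      inv_mul_cancel₀ hpos.ne']
    simp
  obtain ⟨g, hg, hq⟩ := hW2 v hvW
  have h1 := lp_unit hnorm
  rw [h1, mul_one] at hq
  have hfam := family_bound d hd (fun _ : Fin 1 => (v : (Fin d → ℝ) → ℂ)) (fun _ => g)
    (fun _ => hg) (by
      intro i j
      rw [if_pos (Subsingleton.elim i j), ← lp_inner, hnorm]) V hV
  rw [Fin.sum_univ_one] at hfam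
  linarith

/-- The sum of the absolute values of the negative min-max values. -/
theorem minMax_bound (d : ℕ) (hd : 1 ≤ d) (V : (Fin d → ℝ) → ℝ) (hV : Adm d V) (N : ℕ) :
    ∑ n ∈ Finset.range N, max (-minMax V n) 0 ≤
      L1 d * ∫ x, (max (-V x) 0) ^ (1 + (d:ℝ) / 2) := by
  classical
  set J : Finset ℕ := (Finset.range N).filter fun n => minMax V n < 0 with hJ
  refine le_of_forall_pos_le_add fun ε hε => ?_
  set δ : ℝ := ε / (N + 1) with hδ
  have hδ0 : 0 < δ := by positivity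
  have hex : ∀ n ∈ J, ∃ lam, lam < minMax V n + δ ∧
      ∃ W : Submodule ℂ (Lp ℂ 2 (volume : Measure (Fin d → ℝ))),
      Module.finrank ℂ W = n + 1 ∧ ∀ u ∈ W, ∃ g : Fin d → (Fin d → ℝ) → ℂ, WGradC u g ∧
      (∫ x, ∑ k, ‖g k x‖ ^ 2) + ∫ x, V x * ‖u x‖ ^ 2 ≤ lam * ∫ x, ‖u x‖ ^ 2 := by
    intro n hn
    have hneg : minMax V n < 0 := (Finset.mem_filter.1 hn).2
    have hne : {lam : ℝ | ∃ W : Submodule ℂ (Lp ℂ 2 (volume : Measure (Fin d → ℝ))),
        Module.finrank ℂ W = n + 1 ∧ ∀ u ∈ W, ∃ g : Fin d → (Fin d → ℝ) → ℂ, WGradC u g ∧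
        (∫ x, ∑ k, ‖g k x‖ ^ 2) + ∫ x, V x * ‖u x‖ ^ 2 ≤ lam * ∫ x, ‖u x‖ ^ 2}.Nonempty := by
      by_contra hemp
      rw [not_nonempty_iff_eq_empty] at hemp
      rw [minMax, hemp, Real.sInf_empty] at hneg
      exact lt_irrefl _ hneg
    obtain ⟨lam, hlam, hlt⟩ := exists_lt_of_csInf_lt hne
      (show sInf _ < minMax V n + δ by rw [← minMax]; linarith)
    exact ⟨lam, hlt, hlam⟩
  choose! lam hlam W hWf hW using hex
  obtain ⟨u, huW, huo⟩ := exists_orthonormal J W hWf N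
  have hlt : ∀ n ∈ J, n < N := fun n hn => Finset.mem_range.1 (Finset.mem_filter.1 hn).1
  have hg : ∀ n ∈ J, ∃ g : Fin d → (Fin d → ℝ) → ℂ, WGradC (u n) g ∧
      (∫ x, ∑ k, ‖g k x‖ ^ 2) + ∫ x, V x * ‖u n x‖ ^ 2 ≤ lam n * ∫ x, ‖u n x‖ ^ 2 :=
    fun n hn => hW n hn _ (huW n hn (hlt n hn))
  choose! g hgS hgQ using hg
  have hunit : ∀ n ∈ J, ∫ x, ‖u n x‖ ^ 2 = 1 := by
    intro n hn
    have h1 := huo n hn n hn (hlt n hn) (hlt n hn)
    rw [if_pos rfl] at h1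
    exact lp_unit h1
  set e := J.equivFin with he
  have hfam := family_bound d hd (fun i : Fin J.card => (u (e.symm i) : (Fin d → ℝ) → ℂ))
    (fun i => g (e.symm i))
    (fun i => hgS _ (e.symm i).2) (by
      intro i j
      rw [← lp_inner, huo _ (e.symm i).2 _ (e.symm j).2 (hlt _ (e.symm i).2)
        (hlt _ (e.symm j).2)]
      simp only [Subtype.val_inj, EmbeddingLike.apply_eq_iff_eq]) V hV
  have hsumJ : ∑ i : Fin J.card, ((∫ x, ∑ k, ‖g (e.symm i) k x‖ ^ 2) +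
      ∫ x, V x * ‖u (e.symm i) x‖ ^ 2) =
      ∑ n ∈ J, ((∫ x, ∑ k, ‖g n k x‖ ^ 2) + ∫ x, V x * ‖u n x‖ ^ 2) := by
    rw [← Finset.sum_coe_sort J]
    exact Equiv.sum_comp e.symm
      (fun n : J => (∫ x, ∑ k, ‖g n k x‖ ^ 2) + ∫ x, V x * ‖u n x‖ ^ 2)
  rw [hsumJ] at hfam
  have h1 : ∑ n ∈ Finset.range N, max (-minMax V n) 0 = ∑ n ∈ J, -minMax V n := by
    rw [hJ, Finset.sum_filter]
    refine Finset.sum_congr rfl fun n _ => ?_
    by_cases hn : minMax V n < 0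
    · rw [if_pos hn, max_eq_left (by linarith)]
    · rw [if_neg hn, max_eq_right (by linarith)]
  rw [h1]
  have h2 : ∑ n ∈ J, ((∫ x, ∑ k, ‖g n k x‖ ^ 2) + ∫ x, V x * ‖u n x‖ ^ 2) ≤
      ∑ n ∈ J, (minMax V n + δ) := by
    refine Finset.sum_le_sum fun n hn => ?_
    have h3 := hgQ n hn
    rw [hunit n hn, mul_one] at h3
    exact h3.trans (hlam n hn).le
  have hcard : (J.card : ℝ) ≤ N := by
    have : J.card ≤ (Finset.range N).card := Finset.card_filter_le _ _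
    rw [Finset.card_range] at this
    exact_mod_cast this
  have h2' : ∑ n ∈ J, (minMax V n + δ) = (∑ n ∈ J, minMax V n) + (J.card : ℝ) * δ := by
    rw [Finset.sum_add_distrib, Finset.sum_const, nsmul_eq_mul]
  rw [h2'] at h2
  rw [Finset.sum_neg_distrib]
  have h4 : (J.card : ℝ) * δ ≤ ε := by
    calc (J.card : ℝ) * δ ≤ N * δ := mul_le_mul_of_nonneg_right hcard hδ0.le
      _ ≤ (N + 1) * δ := mul_le_mul_of_nonneg_right (by linarith) hδ0.le
      _ = ε := by rw [hδ]; field_simp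
  linarith

end Pool.H632.LTD
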