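import Pool.Agent.H632.LTD1

set_option autoImplicit false

open MeasureTheory Set Filter Topology Real
open scoped ENNReal

namespace Pool.H632.LTD

open LTd

/-- The Beta integral. -/
theorem beta_int {x y E : ℝ} (hx : 0 < x) (hy : 1 < y) (hE : 0 ≤ E) :
    IntegrableOn (fun τ : ℝ => τ ^ (x - 1) * max (E - τ) 0 ^ (y - 1)) (Ioi 0) ∧
    ∫ τ in Ioi (0:ℝ), τ ^ (x - 1) * max (E - τ) 0 ^ (y - 1) =
      Gamma x * Gamma y / Gamma (x + y) * E ^ (x + y - 1) := by
  have hzero : ∀ τ ∈ Ioi E, τ ^ (x - 1) * max (E - τ) 0 ^ (y - 1) = 0 := by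
    intro τ hτ
    have h1 : max (E - τ) 0 = 0 := max_eq_right (by linarith [mem_Ioi.1 hτ])
    rw [h1, Real.zero_rpow (by linarith), mul_zero]
  have hint2 : IntegrableOn (fun τ : ℝ => τ ^ (x - 1) * max (E - τ) 0 ^ (y - 1)) (Ioi E) :=
    (integrableOn_zero).congr_fun (fun τ hτ => (hzero τ hτ).symm) measurableSet_Ioi
  have hint1' : IntervalIntegrable (fun τ : ℝ => τ ^ (x - 1) * max (E - τ) 0 ^ (y - 1))
      volume 0 E := by
    apply IntervalIntegrable.mul_continuousOn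
    · exact intervalIntegral.intervalIntegrable_rpow' (by linarith)
    · apply Continuous.continuousOn
      refine Continuous.rpow_const (by fun_prop) (fun τ => Or.inr (by linarith))
  have hint1 : IntegrableOn (fun τ : ℝ => τ ^ (x - 1) * max (E - τ) 0 ^ (y - 1)) (Ioc 0 E) :=
    (intervalIntegrable_iff_integrableOn_Ioc_of_le hE).1 hint1'
  have hun : Ioi (0:ℝ) = Ioc 0 E ∪ Ioi E := (Ioc_union_Ioi_eq_Ioi hE).symm
  refine ⟨by rw [hun]; exact hint1.union hint2, ?_⟩
  rw [hun, setIntegral_union (by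
    rw [Set.disjoint_left]
    intro τ h1 h2
    exact absurd h1.2 (not_le.2 h2)) measurableSet_Ioi hint1 hint2,
    setIntegral_congr_fun (g := fun _ => (0 : ℝ)) measurableSet_Ioi hzero]
  simp only [integral_zero, add_zero]
  rw [← intervalIntegral.integral_of_le hE]
  rcases hE.eq_or_lt with rfl | hE
  · rw [intervalIntegral.integral_same, Real.zero_rpow (by linarith), mul_zero]
  · have h1 := Complex.betaIntegral_scaled (x : ℂ) (y : ℂ) hE
    have h2 := Complex.betaIntegral_eq_Gamma_mul_div (x : ℂ) (y : ℂ) (by simpa using hx)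
      (by simpa using (by linarith : (0:ℝ) < y))
    rw [h2] at h1
    have h3 : ((∫ τ in (0:ℝ)..E, τ ^ (x - 1) * max (E - τ) 0 ^ (y - 1) : ℝ) : ℂ) =
        ∫ t in (0:ℝ)..E, (t : ℂ) ^ ((x : ℂ) - 1) * ((E : ℂ) - t) ^ ((y : ℂ) - 1) := by
      rw [← intervalIntegral.integral_ofReal]
      apply intervalIntegral.integral_congr
      intro t ht
      rw [uIcc_of_le hE.le] at ht
      have h4 : max (E - t) 0 = E - t := max_eq_left (by linarith [ht.2])
      simp only [h4]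
      rw [Complex.ofReal_mul, Complex.ofReal_cpow ht.1, Complex.ofReal_cpow (by linarith [ht.2])]
      push_cast
      rfl
    rw [← h3] at h1
    have h5 : ((∫ τ in (0:ℝ)..E, τ ^ (x - 1) * max (E - τ) 0 ^ (y - 1) : ℝ) : ℂ) =
        ((Gamma x * Gamma y / Gamma (x + y) * E ^ (x + y - 1) : ℝ) : ℂ) := by
      rw [h1]
      push_cast
      rw [Complex.ofReal_cpow hE.le, ← Complex.Gamma_ofReal, ← Complex.Gamma_ofReal,
        ← Complex.Gamma_ofReal]
      push_cast
      ring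
    exact_mod_cast h5

/-- The Beta integral as a lower Lebesgue integral. -/
lemma beta_lint {x y E : ℝ} (hx : 0 < x) (hy : 1 < y) (hE : 0 ≤ E) :
    ∫⁻ τ in Ioi (0:ℝ), ENNReal.ofReal (τ ^ (x - 1) * max (E - τ) 0 ^ (y - 1)) =
      ENNReal.ofReal (Gamma x * Gamma y / Gamma (x + y) * E ^ (x + y - 1)) := by
  obtain ⟨h1, h2⟩ := beta_int hx hy hE
  rw [← h2, ofReal_integral_eq_lintegral_ofReal h1]
  filter_upwards [ae_restrict_mem measurableSet_Ioi] with τ hτ
  have : 0 < τ := hτ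
  positivity

variable {d : ℕ}

lemma int_pow {γ : ℝ} (hγ : 1 ≤ γ) {V : (Fin d → ℝ) → ℝ}
    (hV : MemLp V (ENNReal.ofReal (γ + (d:ℝ) / 2))) :
    Integrable (fun x => |V x| ^ (γ + (d:ℝ) / 2)) volume := by
  have h0 : 0 < γ + (d:ℝ) / 2 := by positivity
  have h2 := (integrable_norm_rpow_iff hV.1 (p := ENNReal.ofReal (γ + (d:ℝ) / 2))
    (by simpa using h0) ENNReal.ofReal_ne_top).2 hV
  rw [ENNReal.toReal_ofReal h0.le] at h2
  exact h2

/-- Domination of `|V| ρ`. -/
lemma dom (hd : 1 ≤ d) {γ : ℝ} (hγ : 1 ≤ γ) (v : ℝ) {ρ : ℝ} (hρ : 0 ≤ ρ) :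
    |v| * ρ ≤ ρ + KK d * ρ ^ (1 + 2 / (d:ℝ)) + L1 d * |v| ^ (γ + (d:ℝ) / 2) := by
  have hK := KK_pos d hd
  have hL := L1_pos d hd
  have h1 : 0 ≤ KK d * ρ ^ (1 + 2 / (d:ℝ)) := by positivity
  have h2 : 0 ≤ L1 d * |v| ^ (γ + (d:ℝ) / 2) := by positivity
  by_cases hv : |v| ≤ 1
  · have : |v| * ρ ≤ 1 * ρ := mul_le_mul_of_nonneg_right hv hρ
    linarith
  · have hv' : 1 ≤ |v| := (not_le.1 hv).le
    have h3 := young d hd (a := |v|) (abs_nonneg v) hρ
    have h4 : |v| ^ (1 + (d:ℝ) / 2) ≤ |v| ^ (γ + (d:ℝ) / 2) :=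
      Real.rpow_le_rpow_of_exponent_le hv' (by linarith)
    have h5 := mul_le_mul_of_nonneg_left h4 hL.le
    linarith

/-- Integrability of `V |u|²`. -/
lemma int_mul (hd : 1 ≤ d) {γ : ℝ} (hγ : 1 ≤ γ) {V W : (Fin d → ℝ) → ℝ}
    (hV : MemLp V (ENNReal.ofReal (γ + (d:ℝ) / 2))) (hWm : AEStronglyMeasurable W volume)
    (hW : ∀ x, |W x| ≤ |V x|) {u : (Fin d → ℝ) → ℂ} {g : Fin d → (Fin d → ℝ) → ℂ}
    (h : WGradC u g) : Integrable (fun x => W x * ‖u x‖ ^ 2) volume := by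
  have h1 := int_sq h.f2
  have h2 := int_rho d hd h
  have h3 := int_pow hγ hV
  have h4 := (h1.add (h2.const_mul (KK d))).add (h3.const_mul (L1 d))
  refine h4.mono' (hWm.mul h1.1) (Eventually.of_forall fun x => ?_)
  rw [Real.norm_eq_abs, abs_mul, abs_of_nonneg (sq_nonneg ‖u x‖)]
  refine (mul_le_mul_of_nonneg_right (hW x) (sq_nonneg _)).trans ?_
  exact dom hd hγ (V x) (sq_nonneg _)

/-- The shifted potential. -/
noncomputable def sh (V : (Fin d → ℝ) → ℝ) (τ : ℝ) (x : Fin d → ℝ) : ℝ := -(max (-V x - τ) 0)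

lemma sh_abs {V : (Fin d → ℝ) → ℝ} {τ : ℝ} (hτ : 0 ≤ τ) (x : Fin d → ℝ) : |sh V τ x| ≤ |V x| := by
  unfold sh
  rw [abs_neg, abs_of_nonneg (le_max_right _ _)]
  refine max_le ?_ (abs_nonneg _)
  have := neg_le_abs (V x)
  linarith

lemma sh_neg {V : (Fin d → ℝ) → ℝ} {τ : ℝ} (x : Fin d → ℝ) :
    max (-sh V τ x) 0 = max (-V x - τ) 0 := by
  unfold sh
  rw [neg_neg, max_eq_left (le_max_right _ _)]

lemma sh_meas {V : (Fin d → ℝ) → ℝ} (hV : AEStronglyMeasurable V volume) (τ : ℝ) :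
    AEStronglyMeasurable (sh V τ) volume := by
  have : AEMeasurable (sh V τ) volume :=
    ((hV.aemeasurable.neg.sub_const τ).max aemeasurable_const).neg
  exact this.aestronglyMeasurable

lemma sh_adm (hd : 1 ≤ d) {γ : ℝ} (hγ : 1 ≤ γ) {V : (Fin d → ℝ) → ℝ}
    (hV : MemLp V (ENNReal.ofReal (γ + (d:ℝ) / 2))) {τ : ℝ} (hτ : 0 < τ) : Adm d (sh V τ) := by
  refine ⟨fun u g h => int_mul hd hγ hV (sh_meas hV.1 τ) (sh_abs hτ.le) h, ?_⟩
  simp only [sh_neg]
  have hq0 : 0 < 1 + (d:ℝ) / 2 := by positivity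
  have h1 := (int_pow hγ hV).const_mul (τ ^ (-(γ - 1)))
  have hm : AEStronglyMeasurable (fun x => max (-V x - τ) 0 ^ (1 + (d:ℝ) / 2)) volume :=
    (((hV.1.aemeasurable.neg.sub_const τ).max aemeasurable_const).pow_const _).aestronglyMeasurable
  refine h1.mono' hm (Eventually.of_forall fun x => ?_)
  have h0 : 0 ≤ max (-V x - τ) 0 := le_max_right _ _
  rw [Real.norm_of_nonneg (Real.rpow_nonneg h0 _)]
  by_cases hx : τ < -V x
  · have h2 : max (-V x - τ) 0 ≤ |V x| := by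
      refine max_le ?_ (abs_nonneg _)
      have := neg_le_abs (V x)
      linarith
    have h3 : τ ≤ |V x| := by
      have := neg_le_abs (V x)
      linarith
    have hVpos : 0 < |V x| := hτ.trans_le h3
    calc max (-V x - τ) 0 ^ (1 + (d:ℝ) / 2) ≤ |V x| ^ (1 + (d:ℝ) / 2) :=
          Real.rpow_le_rpow h0 h2 hq0.le
      _ = |V x| ^ (-(γ - 1)) * |V x| ^ (γ + (d:ℝ) / 2) := by
          rw [← Real.rpow_add hVpos]
          congr 1
          ring
      _ ≤ τ ^ (-(γ - 1)) * |V x| ^ (γ + (d:ℝ) / 2) := by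
          refine mul_le_mul_of_nonneg_right ?_ (by positivity)
          exact Real.rpow_le_rpow_of_nonpos hτ h3 (by linarith)
  · have h2 : max (-V x - τ) 0 = 0 := max_eq_right (by linarith)
    rw [h2, Real.zero_rpow hq0.ne']
    positivity

/-- `V` itself is admissible if `γ = 1`. -/
lemma adm_one (hd : 1 ≤ d) {V : (Fin d → ℝ) → ℝ}
    (hV : MemLp V (ENNReal.ofReal (1 + (d:ℝ) / 2))) : Adm d V := by
  refine ⟨fun u g h => int_mul hd le_rfl hV hV.1 (fun x => le_rfl) h, ?_⟩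
  have hq0 : 0 < 1 + (d:ℝ) / 2 := by positivity
  have h1 := int_pow le_rfl hV
  have hm : AEStronglyMeasurable (fun x => max (-V x) 0 ^ (1 + (d:ℝ) / 2)) volume :=
    ((hV.1.aemeasurable.neg.max aemeasurable_const).pow_const _).aestronglyMeasurable
  refine h1.mono' hm (Eventually.of_forall fun x => ?_)
  have h0 : 0 ≤ max (-V x) 0 := le_max_right _ _
  rw [Real.norm_of_nonneg (Real.rpow_nonneg h0 _)]
  exact Real.rpow_le_rpow h0 (max_le (neg_le_abs _) (abs_nonneg _)) hq0.le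

/-- Comparison of the min-max values with those of the shifted potential. -/
lemma minMax_shift (hd : 1 ≤ d) {γ : ℝ} (hγ : 1 ≤ γ) {V : (Fin d → ℝ) → ℝ}
    (hV : MemLp V (ENNReal.ofReal (γ + (d:ℝ) / 2))) {τ : ℝ} (hτ : 0 < τ) (n : ℕ) :
    max (max (-minMax V n) 0 - τ) 0 ≤ max (-minMax (sh V τ) n) 0 := by
  by_cases hneg : minMax V n < 0
  · have hne : {lam : ℝ | ∃ W : Submodule ℂ (Lp ℂ 2 (volume : Measure (Fin d → ℝ))),
        Module.finrank ℂ W = n + 1 ∧ ∀ u ∈ W, ∃ g : Fin d → (Fin d → ℝ) → ℂ, WGradC u g ∧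
        (∫ x, ∑ k, ‖g k x‖ ^ 2) + ∫ x, V x * ‖u x‖ ^ 2 ≤ lam * ∫ x, ‖u x‖ ^ 2}.Nonempty := by
      by_contra hemp
      rw [not_nonempty_iff_eq_empty] at hemp
      rw [minMax, hemp, Real.sInf_empty] at hneg
      exact lt_irrefl _ hneg
    have hadm := sh_adm hd hγ hV hτ
    have h1 : minMax (sh V τ) n - τ ≤ minMax V n := by
      refine le_csInf hne ?_
      rintro lam ⟨W, hW, hW2⟩
      rw [sub_le_iff_le_add]
      refine csInf_le (bddBelow d hd _ hadm n) ⟨W, hW, fun u hu => ?_⟩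
      obtain ⟨g, hg, hq⟩ := hW2 u hu
      refine ⟨g, hg, ?_⟩
      have h2 := hadm.int _ _ hg
      have h3 := int_mul hd hγ hV hV.1 (fun x => le_rfl) hg
      have h4 := (int_sq hg.f2).const_mul τ
      have h5 : ∫ x, sh V τ x * ‖u x‖ ^ 2 ≤ ∫ x, (V x * ‖u x‖ ^ 2 + τ * ‖u x‖ ^ 2) := by
        refine integral_mono h2 (h3.add h4) fun x => ?_
        simp only
        rw [← add_mul]
        refine mul_le_mul_of_nonneg_right ?_ (sq_nonneg _)
        unfold sh
        have := le_max_left (-V x - τ) 0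
        linarith
      have h6 : ∫ x, (V x * ‖u x‖ ^ 2 + τ * ‖u x‖ ^ 2) =
          (∫ x, V x * ‖u x‖ ^ 2) + τ * ∫ x, ‖u x‖ ^ 2 := by
        rw [← integral_const_mul]
        exact integral_add h3 h4
      rw [h6] at h5
      rw [add_mul]
      linarith
    refine max_le ?_ (le_max_right _ _)
    rw [max_eq_left (by linarith : (0:ℝ) ≤ -minMax V n)]
    refine le_trans ?_ (le_max_left _ _)
    linarith
  · rw [not_lt] at hneg
    rw [max_eq_right (by linarith : -minMax V n ≤ (0:ℝ)),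
      max_eq_right (by linarith : (0:ℝ) - τ ≤ 0)]
    exact le_max_right _ _

/-- The bound for all `γ ≥ 1`. -/
theorem AL_bound (hd : 1 ≤ d) {γ : ℝ} (hγ : 1 ≤ γ) (V : (Fin d → ℝ) → ℝ)
    (hV : MemLp V (ENNReal.ofReal (γ + (d:ℝ) / 2))) (N : ℕ) :
    ∑ n ∈ Finset.range N, (max (-minMax V n) 0) ^ γ ≤
      2 / √3 * Lcl γ d * ∫ x, (max (-V x) 0) ^ (γ + (d:ℝ) / 2) := by
  rcases hγ.eq_or_lt with rfl | hγ1
  · simp only [Real.rpow_one]
    rw [← L1_eq d hd]
    exact minMax_bound d hd V (adm_one hd hV) N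
  · set E : ℕ → ℝ := fun n => max (-minMax V n) 0 with hE
    have hE0 : ∀ n, 0 ≤ E n := fun n => le_max_right _ _
    have hL := L1_pos d hd
    have hx : 0 < γ - 1 := by linarith
    have hy : (1:ℝ) < 2 + (d:ℝ) / 2 := by
      have : (0:ℝ) ≤ d := Nat.cast_nonneg d
      linarith
    set q : ℝ := 1 + (d:ℝ) / 2 with hq
    have hq0 : 0 < q := by positivity
    -- pointwise in τ
    have h1 : ∀ τ ∈ Ioi (0:ℝ), ENNReal.ofReal (τ ^ (γ - 1 - 1) * ∑ n ∈ Finset.range N,
        max (E n - τ) 0) ≤ ENNReal.ofReal (L1 d) * ∫⁻ x,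
          ENNReal.ofReal (τ ^ (γ - 1 - 1) * max (max (-V x) 0 - τ) 0 ^ q) := by
      intro τ hτ
      have hτ0 : 0 < τ := hτ
      have hadm := sh_adm hd hγ hV hτ0
      have h2 := minMax_bound d hd _ hadm N
      have h3 : ∑ n ∈ Finset.range N, max (E n - τ) 0 ≤
          ∑ n ∈ Finset.range N, max (-minMax (sh V τ) n) 0 :=
        Finset.sum_le_sum fun n _ => minMax_shift hd hγ hV hτ0 n
      have hneg := hadm.neg
      simp only [sh_neg] at h2 hneg
      have h4 : ∀ x, max (-V x - τ) 0 = max (max (-V x) 0 - τ) 0 := by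
        intro x
        rcases le_total (-V x) 0 with h | h
        · rw [max_eq_right h, max_eq_right (by linarith), max_eq_right (by linarith)]
        · rw [max_eq_left h]
      simp only [h4] at h2 hneg
      have hτp : 0 ≤ τ ^ (γ - 1 - 1) := by positivity
      have h5 : τ ^ (γ - 1 - 1) * ∑ n ∈ Finset.range N, max (E n - τ) 0 ≤
          L1 d * ∫ x, τ ^ (γ - 1 - 1) * max (max (-V x) 0 - τ) 0 ^ q := by
        rw [integral_const_mul]
        calc _ ≤ τ ^ (γ - 1 - 1) * (L1 d * ∫ x, max (max (-V x) 0 - τ) 0 ^ q) :=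
              mul_le_mul_of_nonneg_left (h3.trans h2) hτp
          _ = _ := by ring
      refine (ENNReal.ofReal_le_ofReal h5).trans ?_
      rw [ENNReal.ofReal_mul hL.le, ofReal_integral_eq_lintegral_ofReal (hneg.const_mul _)
        (Eventually.of_forall fun x => by positivity)]
    have h2 : ∫⁻ τ in Ioi (0:ℝ), ENNReal.ofReal (τ ^ (γ - 1 - 1) * ∑ n ∈ Finset.range N,
        max (E n - τ) 0) ≤ ∫⁻ τ in Ioi (0:ℝ), ENNReal.ofReal (L1 d) * ∫⁻ x,
          ENNReal.ofReal (τ ^ (γ - 1 - 1) * max (max (-V x) 0 - τ) 0 ^ q) :=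
      setLIntegral_mono_ae' measurableSet_Ioi (Eventually.of_forall h1)
    -- left side
    have hleft : ∫⁻ τ in Ioi (0:ℝ), ENNReal.ofReal (τ ^ (γ - 1 - 1) * ∑ n ∈ Finset.range N,
        max (E n - τ) 0) = ENNReal.ofReal (∑ n ∈ Finset.range N,
          Gamma (γ - 1) * Gamma 2 / Gamma (γ - 1 + 2) * E n ^ γ) := by
      have e1 : ∀ n, IntegrableOn (fun τ : ℝ => τ ^ (γ - 1 - 1) * max (E n - τ) 0) (Ioi 0) ∧
          ∫ τ in Ioi (0:ℝ), τ ^ (γ - 1 - 1) * max (E n - τ) 0 =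
            Gamma (γ - 1) * Gamma 2 / Gamma (γ - 1 + 2) * E n ^ γ := by
        intro n
        have := beta_int hx (by norm_num : (1:ℝ) < 2) (hE0 n)
        have e2 : (2:ℝ) - 1 = 1 := by norm_num
        have e3 : γ - 1 + 2 - 1 = γ := by ring
        rw [e2, e3] at this
        simpa only [Real.rpow_one] using this
      have e4 : ∫ τ in Ioi (0:ℝ), τ ^ (γ - 1 - 1) * ∑ n ∈ Finset.range N, max (E n - τ) 0 =
          ∑ n ∈ Finset.range N, Gamma (γ - 1) * Gamma 2 / Gamma (γ - 1 + 2) * E n ^ γ := by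
        simp only [Finset.mul_sum]
        rw [integral_finsetSum _ fun n _ => (e1 n).1]
        exact Finset.sum_congr rfl fun n _ => (e1 n).2
      have e5 : IntegrableOn (fun τ : ℝ => τ ^ (γ - 1 - 1) *
          ∑ n ∈ Finset.range N, max (E n - τ) 0) (Ioi 0) := by
        simp only [Finset.mul_sum]
        exact integrable_finsetSum _ fun n _ => (e1 n).1
      rw [← e4, ofReal_integral_eq_lintegral_ofReal e5]
      filter_upwards [ae_restrict_mem measurableSet_Ioi] with τ hτ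
      have : 0 < τ := hτ
      exact mul_nonneg (by positivity) (Finset.sum_nonneg fun n _ => le_max_right _ _)
    -- right side
    have hVm : AEMeasurable V volume := hV.1.aemeasurable
    have hP : Integrable (fun x => max (-V x) 0 ^ (γ + (d:ℝ) / 2)) volume := by
      have h3 := int_pow hγ hV
      have hm : AEStronglyMeasurable (fun x => max (-V x) 0 ^ (γ + (d:ℝ) / 2)) volume :=
        ((hVm.neg.max aemeasurable_const).pow_const _).aestronglyMeasurable
      refine h3.mono' hm (Eventually.of_forall fun x => ?_)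
      have h0 : 0 ≤ max (-V x) 0 := le_max_right _ _
      rw [Real.norm_of_nonneg (Real.rpow_nonneg h0 _)]
      exact Real.rpow_le_rpow h0 (max_le (neg_le_abs _) (abs_nonneg _)) (by positivity)
    set B : ℝ := Gamma (γ - 1) * Gamma (2 + (d:ℝ) / 2) / Gamma (γ - 1 + (2 + (d:ℝ) / 2)) with hB
    have hB0 : 0 < B := by
      have g1 : 0 < Gamma (γ - 1) := Gamma_pos_of_pos hx
      have g2 : 0 < Gamma (2 + (d:ℝ) / 2) := Gamma_pos_of_pos (by positivity)
      have g3 : 0 < Gamma (γ - 1 + (2 + (d:ℝ) / 2)) := Gamma_pos_of_pos (by positivity)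
      positivity
    have hright : ∫⁻ τ in Ioi (0:ℝ), ENNReal.ofReal (L1 d) * ∫⁻ x,
          ENNReal.ofReal (τ ^ (γ - 1 - 1) * max (max (-V x) 0 - τ) 0 ^ q) =
        ENNReal.ofReal (L1 d * (B * ∫ x, max (-V x) 0 ^ (γ + (d:ℝ) / 2))) := by
      have hjm : AEMeasurable (fun z : ℝ × (Fin d → ℝ) =>
          ENNReal.ofReal (z.1 ^ (γ - 1 - 1) * max (max (-V z.2) 0 - z.1) 0 ^ q))
          ((volume.restrict (Ioi (0:ℝ))).prod volume) := by
        have m1 : AEMeasurable (fun z : ℝ × (Fin d → ℝ) => V z.2)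
            ((volume.restrict (Ioi (0:ℝ))).prod volume) := hV.1.comp_snd.aemeasurable
        have m2 : AEMeasurable (fun z : ℝ × (Fin d → ℝ) => z.1)
            ((volume.restrict (Ioi (0:ℝ))).prod volume) := measurable_fst.aemeasurable
        exact ((m2.pow_const _).mul ((((m1.neg.max aemeasurable_const).sub m2).max
          aemeasurable_const).pow_const _)).ennreal_ofReal
      rw [lintegral_const_mul' _ _ ENNReal.ofReal_ne_top,
        lintegral_lintegral_swap hjm]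
      have e1 : ∀ x, ∫⁻ τ in Ioi (0:ℝ),
          ENNReal.ofReal (τ ^ (γ - 1 - 1) * max (max (-V x) 0 - τ) 0 ^ q) =
          ENNReal.ofReal (B * max (-V x) 0 ^ (γ + (d:ℝ) / 2)) := by
        intro x
        have := beta_lint hx hy (le_max_right (-V x) 0)
        have e2 : 2 + (d:ℝ) / 2 - 1 = q := by rw [hq]; ring
        have e3 : γ - 1 + (2 + (d:ℝ) / 2) - 1 = γ + (d:ℝ) / 2 := by ring
        rw [e2, e3] at this
        exact this
      simp only [e1]
      rw [← ofReal_integral_eq_lintegral_ofReal (hP.const_mul B)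
        (Eventually.of_forall fun x => by positivity), integral_const_mul,
        ← ENNReal.ofReal_mul hL.le]
    rw [hleft, hright] at h2
    have hI0 : 0 ≤ ∫ x, max (-V x) 0 ^ (γ + (d:ℝ) / 2) := integral_nonneg fun x => by positivity
    have h3 := (ENNReal.ofReal_le_ofReal_iff (by positivity)).1 h2
    rw [← Finset.mul_sum, L1_eq d hd] at h3
    have g1 : 0 < Gamma (γ - 1) := Gamma_pos_of_pos hx
    have g2 : Gamma (γ - 1 + 2) = Gamma (γ + 1) := by congr 1; ring
    have g3 : 0 < Gamma (γ + 1) := Gamma_pos_of_pos (by positivity)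
    have g4 : Gamma ((1:ℝ) + 1 + d / 2) = Gamma (2 + (d:ℝ) / 2) := by congr 1; ring
    have g5 : 0 < Gamma (2 + (d:ℝ) / 2) := Gamma_pos_of_pos (by positivity)
    have g6 : Gamma (γ - 1 + (2 + (d:ℝ) / 2)) = Gamma (γ + 1 + d / 2) := by congr 1; ring
    have g7 : 0 < Gamma (γ + 1 + (d:ℝ) / 2) := Gamma_pos_of_pos (by positivity)
    have g8 : Gamma ((1:ℝ) + 1) = 1 := by
      rw [show (1:ℝ) + 1 = 2 by norm_num]
      exact Real.Gamma_two
    rw [g2, Real.Gamma_two] at h3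
    have h4 : ∑ n ∈ Finset.range N, E n ^ γ ≤ Gamma (γ + 1) / Gamma (γ - 1) *
        (2 / √3 * Lcl 1 d * (B * ∫ x, max (-V x) 0 ^ (γ + (d:ℝ) / 2))) := by
      have h5 := mul_le_mul_of_nonneg_left h3 (by positivity : 0 ≤ Gamma (γ + 1) / Gamma (γ - 1))
      refine le_trans (le_of_eq ?_) h5
      field_simp
    refine h4.trans (le_of_eq ?_)
    rw [hB, g6]
    unfold Lcl
    rw [g8, g4]
    have h30 : 0 < √3 := Real.sqrt_pos.2 (by norm_num)
    have h40 : 0 < (4 * π) ^ ((d:ℝ) / 2) := by positivity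
    field_simp

end Pool.H632.LTD
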