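import Pool.Agent.H632.LTD2
import Pool.Agent.Helper490.LTSech

set_option autoImplicit false

open MeasureTheory Set Filter Topology Real
open scoped ENNReal

namespace Pool.H632.LTD

open LTd Pool.Helper490.Sech

/-- The line as `Fin 1 → ℝ`. -/
lemma int_line {E : Type*} [NormedAddCommGroup E] [NormedSpace ℝ E] (F : ℝ → E) :
    ∫ x : Fin 1 → ℝ, F (x 0) = ∫ t, F t :=
  (volume_preserving_funUnique (Fin 1) ℝ).integral_comp' F

lemma integrable_line {E : Type*} [NormedAddCommGroup E] {F : ℝ → E}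
    (h : Integrable F volume) : Integrable (fun x : Fin 1 → ℝ => F (x 0)) volume :=
  (volume_preserving_funUnique (Fin 1) ℝ).integrable_comp_of_integrable h

/-- The extremal potential. -/
noncomputable def V0 (x : ℝ) : ℝ := -(3 / 4) * (cosh x)⁻¹ ^ 2

lemma V0_cont : Continuous V0 :=
  continuous_const.mul ((continuous_cosh.inv₀ fun x => (cosh_pos x).ne').pow 2)

lemma V0_abs (x : ℝ) : |V0 x| = 3 / 4 * (cosh x)⁻¹ ^ 2 := by
  rw [V0, abs_mul, abs_neg, abs_of_pos (by norm_num : (0:ℝ) < 3 / 4), abs_of_nonneg (sq_nonneg _)]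

lemma V0_rpow (x : ℝ) :
    (3 / 4 * (cosh x)⁻¹ ^ 2 : ℝ) ^ ((3:ℝ) / 2) = 3 * √3 / 8 * (cosh x)⁻¹ ^ 3 := by
  have h1 : 0 < (cosh x)⁻¹ := inv_pos.2 (cosh_pos x)
  have h3 : √3 ^ 2 = 3 := Real.sq_sqrt (by norm_num)
  have h30 : 0 < √3 := Real.sqrt_pos.2 (by norm_num)
  have e1 : (3 / 4 * (cosh x)⁻¹ ^ 2 : ℝ) = (√3 / 2 * (cosh x)⁻¹) ^ 2 := by
    rw [mul_pow, div_pow, h3]; norm_num
  have h4 : 0 ≤ √3 / 2 * (cosh x)⁻¹ := by positivity
  rw [e1, ← Real.rpow_natCast, ← Real.rpow_mul h4]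
  norm_num
  have e2 : (√3 / 2 * (cosh x)⁻¹) ^ 3 = √3 ^ 2 * √3 / 8 * (cosh x)⁻¹ ^ 3 := by ring
  rw [e2, h3]
  ring

/-- The extremal potential on `Fin 1 → ℝ`. -/
noncomputable def V1 (x : Fin 1 → ℝ) : ℝ := V0 (x 0)

lemma V1_cont : Continuous V1 := V0_cont.comp (continuous_apply 0)

lemma exp_one : (1:ℝ) + ((1:ℕ):ℝ) / 2 = 3 / 2 := by norm_num

lemma V1_memLp : MemLp V1 (ENNReal.ofReal (1 + ((1:ℕ):ℝ) / 2)) := by
  rw [← integrable_norm_rpow_iff V1_cont.aestronglyMeasurable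
    (by rw [exp_one]; simp) ENNReal.ofReal_ne_top,
    ENNReal.toReal_ofReal (by rw [exp_one]; norm_num), exp_one]
  simp only [Real.norm_eq_abs, V1, V0_abs, V0_rpow]
  exact integrable_line (int_sech3.const_mul _)

lemma V1_integral : ∫ x, (max (-V1 x) 0) ^ (1 + ((1:ℕ):ℝ) / 2) = 3 * √3 * π / 16 := by
  have h1 : ∀ x, max (-V1 x) 0 = 3 / 4 * (cosh (x 0))⁻¹ ^ 2 := by
    intro x
    have h2 : 0 ≤ 3 / 4 * (cosh (x 0))⁻¹ ^ 2 := by positivity
    have h3 : -V1 x = 3 / 4 * (cosh (x 0))⁻¹ ^ 2 := by rw [V1, V0]; ring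
    rw [h3, max_eq_left h2]
  simp only [h1, exp_one, V0_rpow]
  rw [int_line (fun t => 3 * √3 / 8 * (cosh t)⁻¹ ^ 3), integral_const_mul, integral_sech3]
  ring

/-- The ground state, as a complex function. -/
noncomputable def W1 (x : Fin 1 → ℝ) : ℂ := (w (x 0) : ℂ)

/-- Its derivative. -/
noncomputable def W1' (x : Fin 1 → ℝ) : ℂ := (w' (x 0) : ℂ)

lemma norm_W1 (x : Fin 1 → ℝ) : ‖W1 x‖ ^ 2 = w (x 0) ^ 2 := by
  rw [W1, Complex.norm_real, Real.norm_eq_abs, sq_abs]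

lemma norm_W1' (x : Fin 1 → ℝ) : ‖W1' x‖ ^ 2 = w' (x 0) ^ 2 := by
  rw [W1', Complex.norm_real, Real.norm_eq_abs, sq_abs]

lemma W1_cont : Continuous W1 := Complex.continuous_ofReal.comp (w_cont.comp (continuous_apply 0))

lemma W1'_cont : Continuous W1' :=
  Complex.continuous_ofReal.comp (w'_cont.comp (continuous_apply 0))

lemma W1_memLp : MemLp W1 2 volume := by
  rw [memLp_two_iff_integrable_sq_norm W1_cont.aestronglyMeasurable]
  simp only [norm_W1]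
  exact integrable_line int_w_sq

lemma W1'_memLp : MemLp W1' 2 volume := by
  rw [memLp_two_iff_integrable_sq_norm W1'_cont.aestronglyMeasurable]
  simp only [norm_W1']
  exact integrable_line int_w'_sq

lemma W1_wgrad : WGradC W1 (fun _ => W1') := by
  refine ⟨W1_memLp, fun _ => W1'_memLp, fun k φ hφ hc => ?_⟩
  have hk : k = 0 := Subsingleton.elim _ _
  subst hk
  set ψ : ℝ → ℝ := fun t => φ (fun _ => t) with hψ
  have hφ1 : ContDiff ℝ 1 φ := hφ.of_le (by exact_mod_cast le_top)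
  have hD : ∀ t, HasDerivAt ψ (pd 0 φ (fun _ => t)) t := by
    intro t
    have h1 : HasFDerivAt φ (fderiv ℝ φ (fun _ => t)) (fun _ => t) :=
      (hφ1.differentiable one_ne_zero _).hasFDerivAt
    have h2 : HasDerivAt (fun t : ℝ => (fun _ : Fin 1 => t)) (fun _ => (1:ℝ)) t := by
      rw [hasDerivAt_pi]
      intro i
      exact hasDerivAt_id t
    have h3 := h1.comp_hasDerivAt t h2
    have h4 : (fun _ : Fin 1 => (1:ℝ)) = Pi.single 0 1 := by
      funext i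
      rw [Subsingleton.elim i 0, Pi.single_eq_same]
    rw [h4] at h3
    exact h3
  have hψc : Continuous ψ := hφ.continuous.comp (continuous_pi fun _ => continuous_id)
  have hψs : HasCompactSupport ψ := by
    have hK : IsCompact ((fun x : Fin 1 → ℝ => x 0) '' tsupport φ) :=
      IsCompact.image hc (continuous_apply 0)
    refine HasCompactSupport.intro hK fun t ht => ?_
    exact image_eq_zero_of_notMem_tsupport (f := φ) (x := fun _ => t)
      fun hmem => ht ⟨fun _ => t, hmem, rfl⟩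
  have hpc : Continuous fun t : ℝ => pd 0 φ (fun _ => t) := by
    have h1 : Continuous (pd 0 φ) := by
      unfold pd
      exact (hφ1.continuous_fderiv one_ne_zero).clm_apply continuous_const
    exact h1.comp (continuous_pi fun _ => continuous_id)
  have hps : HasCompactSupport fun t : ℝ => pd 0 φ (fun _ => t) := by
    have : (fun t : ℝ => pd 0 φ (fun _ => t)) = deriv ψ := by
      funext t; exact (hD t).deriv.symm
    rw [this]
    exact hψs.deriv
  have e1 : ∫ x, W1 x * (pd 0 φ x : ℂ) =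
      ∫ t : ℝ, (w t : ℂ) * (pd 0 φ (fun _ => t) : ℂ) := by
    rw [← int_line (fun t : ℝ => (w t : ℂ) * (pd 0 φ (fun _ => t) : ℂ))]
    refine integral_congr_ae (Eventually.of_forall fun x => ?_)
    have : x = fun _ => x 0 := by funext i; rw [Subsingleton.elim i 0]
    simp only [W1]
    rw [← this]
  have e2 : ∫ x, W1' x * (φ x : ℂ) = ∫ t : ℝ, (w' t : ℂ) * (ψ t : ℂ) := by
    rw [← int_line (fun t : ℝ => (w' t : ℂ) * (ψ t : ℂ))]
    refine integral_congr_ae (Eventually.of_forall fun x => ?_)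
    have : x = fun _ => x 0 := by funext i; rw [Subsingleton.elim i 0]
    simp only [W1', hψ]
    rw [← this]
  rw [e1, e2]
  have cw : Continuous fun t : ℝ => (w t : ℂ) := Complex.continuous_ofReal.comp w_cont
  have cw' : Continuous fun t : ℝ => (w' t : ℂ) := Complex.continuous_ofReal.comp w'_cont
  have cψ : Continuous fun t : ℝ => (ψ t : ℂ) := Complex.continuous_ofReal.comp hψc
  have cp : Continuous fun t : ℝ => (pd 0 φ (fun _ => t) : ℂ) :=
    Complex.continuous_ofReal.comp hpc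
  have sψ : HasCompactSupport fun t : ℝ => (ψ t : ℂ) :=
    hψs.comp_left (g := fun r : ℝ => (r : ℂ)) (by simp)
  have sp : HasCompactSupport fun t : ℝ => (pd 0 φ (fun _ => t) : ℂ) :=
    hps.comp_left (g := fun r : ℝ => (r : ℂ)) (by simp)
  exact integral_mul_deriv_eq_deriv_mul_of_integrable
    (u := fun t : ℝ => (w t : ℂ)) (v := fun t : ℝ => (ψ t : ℂ))
    (u' := fun t : ℝ => (w' t : ℂ)) (v' := fun t : ℝ => (pd 0 φ (fun _ => t) : ℂ))
    (fun t _ => (w_deriv t).ofReal_comp) (fun t _ => (hD t).ofReal_comp)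
    ((cw.mul cp).integrable_of_hasCompactSupport sp.mul_left)
    ((cw'.mul cψ).integrable_of_hasCompactSupport sψ.mul_left)
    ((cw.mul cψ).integrable_of_hasCompactSupport sψ.mul_left)

/-- The ground state in `L²`. -/
noncomputable def W1L : Lp ℂ 2 (volume : Measure (Fin 1 → ℝ)) := W1_memLp.toLp W1

lemma W1L_ae : (W1L : (Fin 1 → ℝ) → ℂ) =ᵐ[volume] W1 := W1_memLp.coeFn_toLp

lemma W1L_ne : W1L ≠ 0 := by
  intro h
  have h1 := W1L_ae
  rw [h] at h1
  have h2 : W1 =ᵐ[volume] (0 : (Fin 1 → ℝ) → ℂ) := h1.symm.trans (Lp.coeFn_zero _ _ _)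
  have h3 : W1 = 0 := Continuous.ae_eq_iff_eq volume W1_cont continuous_const |>.1 h2
  have h4 := congrFun h3 0
  have h5 := w_pos 0
  simp only [W1, Pi.zero_apply, Complex.ofReal_eq_zero] at h4
  linarith

lemma minMax_V1 : minMax V1 0 ≤ -(1 / 4) := by
  refine csInf_le (bddBelow 1 le_rfl V1 (adm_one le_rfl V1_memLp) 0) ?_
  refine ⟨Submodule.span ℂ {W1L}, ?_, ?_⟩
  · rw [finrank_span_singleton W1L_ne]
  · intro u hu
    obtain ⟨c, rfl⟩ := Submodule.mem_span_singleton.1 hu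
    have hae : (fun x => c * W1 x) =ᵐ[volume] ((c • W1L : Lp ℂ 2 _) : (Fin 1 → ℝ) → ℂ) := by
      filter_upwards [W1L_ae, Lp.coeFn_smul c W1L] with x h1 h2
      rw [h2, Pi.smul_apply, smul_eq_mul, h1]
    refine ⟨fun _ x => c * W1' x, wgrad_congr (wgrad_const_mul W1_wgrad c) hae, ?_⟩
    have e0 : ∫ x, ‖((c • W1L : Lp ℂ 2 _) : (Fin 1 → ℝ) → ℂ) x‖ ^ 2 = ∫ x, ‖c * W1 x‖ ^ 2 := by
      refine integral_congr_ae ?_
      filter_upwards [hae] with x hx
      rw [hx]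
    have e0' : ∫ x, V1 x * ‖((c • W1L : Lp ℂ 2 _) : (Fin 1 → ℝ) → ℂ) x‖ ^ 2 =
        ∫ x, V1 x * ‖c * W1 x‖ ^ 2 := by
      refine integral_congr_ae ?_
      filter_upwards [hae] with x hx
      rw [hx]
    rw [e0, e0']
    have e1 : ∀ x, ‖c * W1 x‖ ^ 2 = ‖c‖ ^ 2 * w (x 0) ^ 2 := by
      intro x
      rw [norm_mul, mul_pow, norm_W1]
    have e2 : ∀ x, ‖c * W1' x‖ ^ 2 = ‖c‖ ^ 2 * w' (x 0) ^ 2 := by
      intro x
      rw [norm_mul, mul_pow, norm_W1']
    have e3 : ∀ x, V1 x * (‖c‖ ^ 2 * w (x 0) ^ 2) =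
        ‖c‖ ^ 2 * (-(3 / 4) * (cosh (x 0))⁻¹ ^ 3) := by
      intro x
      rw [V1, V0, w_sq]
      ring
    simp only [Finset.univ_unique, Finset.sum_singleton, e1, e2, e3]
    have i1 : ∫ x : Fin 1 → ℝ, ‖c‖ ^ 2 * w' (x 0) ^ 2 = ‖c‖ ^ 2 * (π / 8) := by
      rw [integral_const_mul, int_line (fun t => w' t ^ 2), integral_w'_sq]
    have i2 : ∫ x : Fin 1 → ℝ, ‖c‖ ^ 2 * w (x 0) ^ 2 = ‖c‖ ^ 2 * π := by
      rw [integral_const_mul, int_line (fun t => w t ^ 2), integral_w_sq]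
    have i3 : ∫ x : Fin 1 → ℝ, ‖c‖ ^ 2 * (-(3 / 4) * (cosh (x 0))⁻¹ ^ 3) =
        ‖c‖ ^ 2 * (-(3 / 4) * (π / 2)) := by
      rw [integral_const_mul, int_line (fun t => -(3 / 4) * (cosh t)⁻¹ ^ 3), integral_const_mul,
        integral_sech3]
    rw [i1, i2, i3]
    apply le_of_eq
    ring

lemma const_one : 2 / √3 * Lcl 1 1 = 4 / (3 * √3 * π) := by
  unfold Lcl
  have h1 : Gamma ((1:ℝ) + 1) = 1 := by
    rw [show (1:ℝ) + 1 = 2 by norm_num]
    exact Real.Gamma_two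
  have h2 : Gamma ((1:ℝ) + 1 + ((1:ℕ):ℝ) / 2) = 3 / 4 * √π := by
    have e : (1:ℝ) + 1 + ((1:ℕ):ℝ) / 2 = (1 / 2 + 1) + 1 := by norm_num
    rw [e, Real.Gamma_add_one (by norm_num), Real.Gamma_add_one (by norm_num),
      Real.Gamma_one_half_eq]
    ring
  have h3 : (4 * π) ^ (((1:ℕ):ℝ) / 2) = 2 * √π := by
    rw [Nat.cast_one, ← Real.sqrt_eq_rpow, Real.sqrt_mul (by norm_num)]
    congr 1
    rw [show (4:ℝ) = 2 ^ 2 by norm_num, Real.sqrt_sq (by norm_num)]
  rw [h1, h2, h3]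
  have h4 : √π * √π = π := Real.mul_self_sqrt pi_pos.le
  have h5 : 0 < √π := Real.sqrt_pos.2 pi_pos
  have h30 : 0 < √3 := Real.sqrt_pos.2 (by norm_num)
  have h6 : 2 * √π * (3 / 4 * √π) = 3 / 2 * π := by
    rw [show 2 * √π * (3 / 4 * √π) = 3 / 2 * (√π * √π) by ring, h4]
  rw [h6]
  field_simp
  ring

/-- The lower bound for the constant in dimension one. -/
lemma lower_one (L : ℝ) (hL : 1 / 4 ≤ L * (3 * √3 * π / 16)) : 2 / √3 * Lcl 1 1 ≤ L := by
  rw [const_one]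
  have hπ := pi_pos
  have h30 : 0 < √3 := Real.sqrt_pos.2 (by norm_num)
  rw [div_le_iff₀ (by positivity)]
  linarith

end Pool.H632.LTD
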