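import Pool.Agent.H632.LTD3

set_option autoImplicit false

open MeasureTheory Set Filter Topology Real
open scoped ENNReal ComplexConjugate

namespace Pool.H632.LTD

open LTd

variable {d : ℕ}

/-- The min-max values in terms of orthonormal families of trial functions. -/
noncomputable def mm (V : (Fin d → ℝ) → ℝ) (n : ℕ) : ℝ :=
  sInf {lam : ℝ | ∃ (u : Fin (n + 1) → (Fin d → ℝ) → ℂ)
    (g : Fin (n + 1) → Fin d → (Fin d → ℝ) → ℂ), (∀ i, WGradC (u i) (g i)) ∧
    (∀ i j, ∫ x, (starRingEnd ℂ) (u i x) * u j x = if i = j then 1 else 0) ∧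
    ∀ c : Fin (n + 1) → ℂ, (∫ x, ∑ k, ‖∑ i, c i * g i k x‖ ^ 2) +
      ∫ x, V x * ‖∑ i, c i * u i x‖ ^ 2 ≤ lam * ∑ i, ‖c i‖ ^ 2}

lemma memLp_test {φ : (Fin d → ℝ) → ℝ} (hφ : ContDiff ℝ (⊤ : ℕ∞) φ) (hc : HasCompactSupport φ) :
    MemLp (fun x => (φ x : ℂ)) 2 (volume : Measure (Fin d → ℝ)) :=
  (hφ.continuous.memLp_of_hasCompactSupport hc).ofReal

lemma memLp_pd {φ : (Fin d → ℝ) → ℝ} (hφ : ContDiff ℝ (⊤ : ℕ∞) φ) (hc : HasCompactSupport φ)
    (k : Fin d) : MemLp (fun x => (pd k φ x : ℂ)) 2 (volume : Measure (Fin d → ℝ)) := by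
  have hφ1 : ContDiff ℝ 1 φ := hφ.of_le (by exact_mod_cast le_top)
  have h1 : Continuous (pd k φ) := by
    unfold pd
    exact (hφ1.continuous_fderiv one_ne_zero).clm_apply continuous_const
  have h2 : HasCompactSupport (pd k φ) := by
    have := (hc.fderiv ℝ).comp_left (g := fun L : (Fin d → ℝ) →L[ℝ] ℝ => L (Pi.single k 1))
      (by simp)
    exact this
  exact (h1.memLp_of_hasCompactSupport h2).ofReal

lemma wgrad_sum {N : ℕ} {u : Fin N → (Fin d → ℝ) → ℂ} {g : Fin N → Fin d → (Fin d → ℝ) → ℂ}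
    (h : ∀ i, WGradC (u i) (g i)) (c : Fin N → ℂ) :
    WGradC (fun x => ∑ i, c i * u i x) (fun k x => ∑ i, c i * g i k x) := by
  refine ⟨memLp_finsetSum _ fun i _ => (h i).f2.const_mul (c i),
    fun k => memLp_finsetSum _ fun i _ => ((h i).g2 k).const_mul (c i), fun k φ hφ hc => ?_⟩
  have i1 : ∀ i, Integrable (fun x => c i * (u i x * (pd k φ x : ℂ))) volume := fun i =>
    ((h i).f2.integrable_mul (memLp_pd hφ hc k)).const_mul (c i)
  have i2 : ∀ i, Integrable (fun x => c i * (g i k x * (φ x : ℂ))) volume := fun i =>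
    (((h i).g2 k).integrable_mul (memLp_test hφ hc)).const_mul (c i)
  simp only [Finset.sum_mul, mul_assoc]
  rw [integral_finsetSum _ fun i _ => i1 i, integral_finsetSum _ fun i _ => i2 i,
    ← Finset.sum_neg_distrib]
  refine Finset.sum_congr rfl fun i _ => ?_
  rw [integral_const_mul, integral_const_mul, (h i).weak k φ hφ hc, mul_neg]

/-- The weak gradient is unique. -/
lemma wgrad_unique {u : (Fin d → ℝ) → ℂ} {g g' : Fin d → (Fin d → ℝ) → ℂ} (h : WGradC u g)
    (h' : WGradC u g') (k : Fin d) : g k =ᵐ[volume] g' k := by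
  have hl : LocallyIntegrable (fun x => g k x - g' k x) volume :=
    ((h.g2 k).sub (h'.g2 k)).locallyIntegrable (by norm_num)
  have h0 := ae_eq_zero_of_integral_contDiff_smul_eq_zero hl (fun φ hφ hc => by
    have i1 : Integrable (fun x => g k x * (φ x : ℂ)) volume :=
      (h.g2 k).integrable_mul (memLp_test hφ hc)
    have i2 : Integrable (fun x => g' k x * (φ x : ℂ)) volume :=
      (h'.g2 k).integrable_mul (memLp_test hφ hc)
    have e1 := h.weak k φ hφ hc
    have e2 := h'.weak k φ hφ hc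
    have e3 : ∫ x, φ x • (g k x - g' k x) =
        (∫ x, g k x * (φ x : ℂ)) - ∫ x, g' k x * (φ x : ℂ) := by
      rw [← integral_sub i1 i2]
      refine integral_congr_ae (Eventually.of_forall fun x => ?_)
      simp only [Complex.real_smul]
      ring
    rw [e3]
    rw [e1] at e2
    have := neg_injective e2
    rw [this, sub_self])
  filter_upwards [h0] with x hx
  exact sub_eq_zero.1 hx

lemma coeFn_sum {N : ℕ} (c : Fin N → ℂ) (e : Fin N → Lp ℂ 2 (volume : Measure (Fin d → ℝ)))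
    (s : Finset (Fin N)) : ((∑ i ∈ s, c i • e i : Lp ℂ 2 _) : (Fin d → ℝ) → ℂ) =ᵐ[volume]
      fun x => ∑ i ∈ s, c i * e i x := by
  classical
  induction s using Finset.induction_on with
  | empty =>
    simp only [Finset.sum_empty]
    exact Lp.coeFn_zero _ _ _
  | insert a s ha ih =>
    rw [Finset.sum_insert ha]
    filter_upwards [ih, Lp.coeFn_add (c a • e a) (∑ i ∈ s, c i • e i), Lp.coeFn_smul (c a) (e a)]
      with x h1 h2 h3
    rw [h2, Pi.add_apply, h1, h3, Pi.smul_apply, smul_eq_mul, Finset.sum_insert ha]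

lemma lp_norm_sq (w : Lp ℂ 2 (volume : Measure (Fin d → ℝ))) : ∫ x, ‖w x‖ ^ 2 = ‖w‖ ^ 2 := by
  have h1 := lp_inner w w
  simp only [star_mul_self] at h1
  rw [integral_complex_ofReal, inner_self_eq_norm_sq_to_K] at h1
  have h2 : ((∫ x, ‖w x‖ ^ 2 : ℝ) : ℂ) = ((‖w‖ ^ 2 : ℝ) : ℂ) := by
    rw [Complex.ofReal_pow]
    exact h1.symm
  exact Complex.ofReal_injective h2

lemma norm_sum_sq {N : ℕ} {e : Fin N → Lp ℂ 2 (volume : Measure (Fin d → ℝ))}
    (he : Orthonormal ℂ e) (c : Fin N → ℂ) : ‖∑ i, c i • e i‖ ^ 2 = ∑ i, ‖c i‖ ^ 2 := by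
  have h1 := he.inner_sum c c Finset.univ
  rw [inner_self_eq_norm_sq_to_K] at h1
  have h2 : ∑ i, (starRingEnd ℂ) (c i) * c i = ((∑ i, ‖c i‖ ^ 2 : ℝ) : ℂ) := by
    push_cast
    refine Finset.sum_congr rfl fun i _ => ?_
    rw [star_mul_self]
    push_cast
    rfl
  rw [h2] at h1
  have h3 : ((‖∑ i, c i • e i‖ ^ 2 : ℝ) : ℂ) = ((∑ i, ‖c i‖ ^ 2 : ℝ) : ℂ) := by
    rw [Complex.ofReal_pow]
    exact h1
  exact Complex.ofReal_injective h3

/-- The two descriptions of the min-max values agree. -/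
theorem mm_eq (V : (Fin d → ℝ) → ℝ) (n : ℕ) : mm V n = minMax V n := by
  unfold mm minMax
  congr 1
  ext lam
  constructor
  · rintro ⟨u, g, hu, ho, hq⟩
    let e : Fin (n + 1) → Lp ℂ 2 (volume : Measure (Fin d → ℝ)) := fun i => (hu i).f2.toLp (u i)
    have hea : ∀ i, (e i : (Fin d → ℝ) → ℂ) =ᵐ[volume] u i := fun i => (hu i).f2.coeFn_toLp
    have heo : Orthonormal ℂ e := by
      rw [orthonormal_iff_ite]
      intro i j
      rw [lp_inner, ← ho i j]
      refine integral_congr_ae ?_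
      filter_upwards [hea i, hea j] with x h1 h2
      rw [h1, h2]
    refine ⟨Submodule.span ℂ (range e), ?_, fun w hw => ?_⟩
    · rw [finrank_span_eq_card heo.linearIndependent, Fintype.card_fin]
    · obtain ⟨c, rfl⟩ := (Submodule.mem_span_range_iff_exists_fun ℂ).1 hw
      have hae : (fun x => ∑ i, c i * u i x) =ᵐ[volume]
          ((∑ i, c i • e i : Lp ℂ 2 _) : (Fin d → ℝ) → ℂ) := by
        have h2 : ∀ᵐ x, ∀ i, (e i : (Fin d → ℝ) → ℂ) x = u i x := ae_all_iff.2 hea
        filter_upwards [coeFn_sum c e Finset.univ, h2] with x h3 h4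
        rw [h3]
        exact Finset.sum_congr rfl fun i _ => by rw [h4 i]
      refine ⟨fun k x => ∑ i, c i * g i k x, wgrad_congr (wgrad_sum hu c) hae, ?_⟩
      rw [lp_norm_sq, norm_sum_sq heo]
      refine le_trans (le_of_eq ?_) (hq c)
      congr 1
      refine integral_congr_ae ?_
      filter_upwards [hae] with x hx
      rw [← hx]
  · rintro ⟨W, hW, hW2⟩
    have hfin : FiniteDimensional ℂ W :=
      FiniteDimensional.of_finrank_pos (by rw [hW]; exact Nat.succ_pos n)
    let b : OrthonormalBasis (Fin (n + 1)) ℂ W := (stdOrthonormalBasis ℂ W).reindex (finCongr hW)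
    let e : Fin (n + 1) → Lp ℂ 2 (volume : Measure (Fin d → ℝ)) := fun i => (b i : W)
    have heo : Orthonormal ℂ e := by
      rw [orthonormal_iff_ite]
      intro i j
      have := orthonormal_iff_ite.1 b.orthonormal i j
      rw [← this]
      rfl
    have heW : ∀ i, e i ∈ W := fun i => (b i).2
    have hex : ∀ i, ∃ g : Fin d → (Fin d → ℝ) → ℂ, WGradC (e i : (Fin d → ℝ) → ℂ) g := fun i =>
      (hW2 (e i) (heW i)).imp fun g hg => hg.1
    choose g hg using hex
    refine ⟨fun i => (e i : (Fin d → ℝ) → ℂ), g, hg, fun i j => ?_, fun c => ?_⟩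
    · rw [← lp_inner]
      exact orthonormal_iff_ite.1 heo i j
    · have hvW : (∑ i, c i • e i) ∈ W := W.sum_mem fun i _ => W.smul_mem _ (heW i)
      obtain ⟨G, hG, hq⟩ := hW2 _ hvW
      have hae := coeFn_sum c e Finset.univ
      have hG2 := wgrad_congr (wgrad_sum hg c) hae.symm
      have huni := fun k => wgrad_unique hG hG2 k
      rw [lp_norm_sq, norm_sum_sq heo] at hq
      refine le_trans (le_of_eq ?_) hq
      congr 1
      · refine integral_congr_ae ?_
        have h2 : ∀ᵐ x, ∀ k, G k x = ∑ i, c i * g i k x := ae_all_iff.2 huni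
        filter_upwards [h2] with x hx
        exact Finset.sum_congr rfl fun k _ => by rw [hx k]
      · refine integral_congr_ae ?_
        filter_upwards [hae] with x hx
        rw [hx]

end Pool.H632.LTD
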